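import Mathlib
import Pool.Agent.R625.DstQ1

/-!
# The constant-objects functor into the `D_st`-topos does not preserve first-order logic
-/

namespace Pool.Agent.Results.MP_3e25b1_lc.ConstantObjectsLogic

open Pool.Agent.R625.Dst FirstOrder.Language

/-- **Question 1.**

* The three candidate readings `img`, `lit`, `int` of the predicates of `∇` all have truth on the
  given set and falsity off it as values.
* `img` gives the usual constant-objects functor: `img` of the diagonal is `∃_δ ⊤`, `img I A` is the
  subobject `∃_{A ↪ I} ⊤`. For it `∇` neither preserves nor reflects first-order logic; moreover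
  for every structure `M` with two distinct elements the classically valid sentence
  `∀ x y, x = y ∨ ¬ x = y` is interpreted by falsity, and its negation holds in `∇ M`.
* `lit`, the literal formula, is not an equality predicate on any set with two elements.
* `int` gives objects of the topos, and for it `∇` preserves and reflects first-order logic. -/
theorem result :
    (Pointwise img ∧ Pointwise lit ∧ Pointwise int) ∧
    ((∀ X : Type, IsObj (img (X × X) (diag X)) ∧
        IsEx (fun x : X => (x, x)) (fun _ => topS) (img (X × X) (diag X))) ∧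
      (∀ (I : Type) (A : Set I), IsEx (Subtype.val : A → I) (fun _ => topS) (img I A)) ∧
      ¬ Preserves img ∧ ¬ Reflects img ∧
      ∀ (L : FirstOrder.Language.{0, 0}) (M : Type) [L.Structure M] [Nontrivial M],
        (∀ v, Sat M (decEq L) v) ∧
        (∃ D, Interp img M (decEq L) D) ∧ (∀ D, Interp img M (decEq L) D → IsBot D) ∧
        (∃ D, Interp img M (notDecEq L) D) ∧
        (∀ D, Interp img M (notDecEq L) D → ∀ v, Holds D v)) ∧
    (∀ (X : Type) [Nontrivial X], ¬ IsObj (lit (X × X) (diag X))) ∧
    ((∀ X : Type, IsObj (int (X × X) (diag X))) ∧ Preserves int ∧ Reflects int ∧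
      ∀ (L : FirstOrder.Language.{0, 0}) (M : Type) [L.Structure M] (n : ℕ) (φ : Fml L n),
        ∃ D, Interp int M φ D) := by
  refine ⟨⟨pointwise_img, pointwise_lit, pointwise_int⟩, ⟨?_, ?_, ?_, ?_, ?_⟩, ?_, ?_, ?_, ?_, ?_⟩
  · intro X
    refine ⟨isObj_of (κ := img) img_mono img_meet (fun f A => rfl) X, isEx_img _ _ ?_⟩
    rintro ⟨x, y⟩
    constructor
    · intro h
      exact ⟨x, Prod.ext rfl h⟩
    · rintro ⟨z, h⟩
      rw [← h]
      exact rfl
  · intro I A
    exact isEx_img _ _ (fun i => ⟨fun h => ⟨⟨i, h⟩, rfl⟩, fun ⟨j, hj⟩ => hj ▸ j.2⟩)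
  · intro h
    let _ : FirstOrder.Language.empty.Structure Bool :=
      { funMap := fun {n} => isEmptyElim, RelMap := fun {n} => isEmptyElim }
    exact not_holds_of_isBot (decEq_bot FirstOrder.Language.empty Bool _ (interp_decEq _ _))
      (fun i => i.elim0) (h FirstOrder.Language.empty Bool 0 (decEq _) _ _ (interp_decEq _ _)
        (sat_decEq _ _ _))
  · intro h
    let _ : FirstOrder.Language.empty.Structure Bool :=
      { funMap := fun {n} => isEmptyElim, RelMap := fun {n} => isEmptyElim }
    have v : Fin 0 → Bool := fun i => i.elim0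
    exact not_sat_notDecEq FirstOrder.Language.empty Bool v
      (h FirstOrder.Language.empty Bool 0 (notDecEq _) v _ (interp_notDecEq _ _)
        (holds_notDecEq FirstOrder.Language.empty Bool _ (interp_notDecEq _ _) _))
  · intro L M _ _
    exact ⟨sat_decEq L M, ⟨_, interp_decEq L M⟩, decEq_bot L M, ⟨_, interp_notDecEq L M⟩,
      holds_notDecEq L M⟩
  · intro X _
    exact not_isObj_lit X
  · intro X
    exact isObj_of (κ := int) int_mono int_meet (fun f A => rfl) X
  · intro L M _ n φ v D hD h
    exact (int_sound_complete M φ D hD v).2 h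
  · intro L M _ n φ v D hD h
    exact (int_sound_complete M φ D hD v).1 h
  · intro L M _ n φ
    exact ⟨_, interp_int M φ⟩

end Pool.Agent.Results.MP_3e25b1_lc.ConstantObjectsLogic
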