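import Mathlib
import Pool.Agent.R625.DstNNO

/-!
# `∇ℕ` is not a natural numbers object of the `D_st`-topos
-/

namespace Pool.Agent.Results.MP_3e25b1_lc.NotNaturalNumbers

open Pool.Agent.R625.Dst

/-- **Question 2.** `∇ℕ` with `∇0` and `∇S` is not a natural numbers object, both for the usual
constant-objects functor (`img`, see `isEx_img`) and for its internal variant `int`; for the literal
reading `lit` the pair `(ℕ, lit)` is not an object at all. -/
theorem result :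
    (IsEx (fun x : ℕ => (x, x)) (fun _ => topS) (img (ℕ × ℕ) (diag ℕ)) ∧
      IsEx (fun _ : Unit => ((), 0)) (fun _ => topS) (img (Unit × ℕ) zeroGraph) ∧
      IsEx (fun x : ℕ => (x, x + 1)) (fun _ => topS) (img (ℕ × ℕ) succGraph) ∧
      IsObj (img (ℕ × ℕ) (diag ℕ)) ∧
      ¬ IsNNO (img (ℕ × ℕ) (diag ℕ)) (img (Unit × ℕ) zeroGraph) (img (ℕ × ℕ) succGraph)) ∧
    (IsObj (int (ℕ × ℕ) (diag ℕ)) ∧
      ¬ IsNNO (int (ℕ × ℕ) (diag ℕ)) (int (Unit × ℕ) zeroGraph) (int (ℕ × ℕ) succGraph)) ∧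
    ¬ IsObj (lit (ℕ × ℕ) (diag ℕ)) := by
  refine ⟨⟨?_, ?_, ?_, ?_, not_isNNO good_img⟩, ⟨?_, not_isNNO good_int⟩, not_isObj_lit ℕ⟩
  · refine isEx_img _ _ ?_
    rintro ⟨x, y⟩
    constructor
    · intro h
      exact ⟨x, Prod.ext rfl h⟩
    · rintro ⟨z, h⟩
      rw [← h]
      exact rfl
  · refine isEx_img _ _ ?_
    rintro ⟨x, y⟩
    constructor
    · intro h
      exact ⟨(), Prod.ext rfl (Eq.symm h)⟩
    · rintro ⟨z, h⟩
      rw [← h]
      exact rfl
  · refine isEx_img _ _ ?_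
    rintro ⟨x, y⟩
    constructor
    · intro h
      exact ⟨x, Prod.ext rfl (Eq.symm h)⟩
    · rintro ⟨z, h⟩
      rw [← h]
      exact rfl
  · exact isObj_of (κ := img) img_mono img_meet (fun f A => rfl) ℕ
  · exact isObj_of (κ := int) int_mono int_meet (fun f A => rfl) ℕ

end Pool.Agent.Results.MP_3e25b1_lc.NotNaturalNumbers
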